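import Pool.Agent.W684.SG.Stm
import Mathlib

/-!
# Project SG: a proper set of columns closed under an operation on conditions and codes (CLOS)
-/

set_option autoImplicit false

namespace Pool.Agent.W540.SG

open Cardinal Ordinal Set Pool.Agent.W684.SG

variable {K : Type}

/-- `r` is the condition with support in the range of `a` and values `c` -/
def Q (a : ℕ → Option K) (c : ℕ → ℕ → Option Bool) (r : Cond K) : Prop :=
  (∀ k n, r.val k n ≠ none → ∃ m, a m = some k) ∧
    ∀ m n, c m n = (a m).bind fun k => r.val k n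

lemma Q_unique {a : ℕ → Option K} {c : ℕ → ℕ → Option Bool} {r r' : Cond K} (h : Q a c r)
    (h' : Q a c r') : r = r' := by
  have hv : r.val = r'.val := by
    funext k n
    by_cases hk : ∃ m, a m = some k
    · obtain ⟨m, hm⟩ := hk
      have h1 := h.2 m n
      have h2 := h'.2 m n
      rw [hm] at h1 h2
      simp only [Option.bind_some] at h1 h2
      rw [← h1, ← h2]
    · have h1 : r.val k n = none := by
        by_contra hne
        exact hk (h.1 k n hne)
      have h2 : r'.val k n = none := by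
        by_contra hne
        exact hk (h'.1 k n hne)
      rw [h1, h2]
  cases r
  cases r'
  simp only at hv
  subst hv
  rfl

open Classical in
/-- one step of the closure -/
noncomputable def Psi (F : Cond K → (Finset ℕ → List ℕ → Prop) → Set K) (a : ℕ → Option K)
    (c : ℕ → ℕ → Option Bool) (y : Finset ℕ → List ℕ → Prop) : Set K :=
  if h : ∃ r, Q a c r then F h.choose y else ∅

lemma Psi_countable {F : Cond K → (Finset ℕ → List ℕ → Prop) → Set K}
    (hF : ∀ r y, (F r y).Countable) (a : ℕ → Option K) (c : ℕ → ℕ → Option Bool)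
    (y : Finset ℕ → List ℕ → Prop) : (Psi F a c y).Countable := by
  unfold Psi
  split_ifs with h
  · exact hF _ _
  · exact countable_empty

lemma subset_Psi (F : Cond K → (Finset ℕ → List ℕ → Prop) → Set K) {a : ℕ → Option K}
    {r : Cond K} (h : ∀ k n, r.val k n ≠ none → ∃ m, a m = some k)
    (y : Finset ℕ → List ℕ → Prop) :
    F r y = Psi F a (fun m n => (a m).bind fun k => r.val k n) y := by
  have hQ : Q a (fun m n => (a m).bind fun k => r.val k n) r := ⟨h, fun _ _ => rfl⟩
  have hex : ∃ r', Q a (fun m n => (a m).bind fun k => r.val k n) r' := ⟨r, hQ⟩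
  unfold Psi
  rw [dif_pos hex, ← Q_unique hQ hex.choose_spec]

/-- the iteration -/
noncomputable def rec' (F : Cond K → (Finset ℕ → List ℕ → Prop) → Set K) (i : Ordinal.{0}) :
    Set K :=
  let S := ⋃ j < i, rec' F j
  ⋃ p : (ℕ → Option S) × (ℕ → ℕ → Option Bool) × (Finset ℕ → List ℕ → Prop),
    Psi F (fun n => (p.1 n).map Subtype.val) p.2.1 p.2.2
termination_by i

lemma card_params (S : Set K) (hS : #S ≤ 𝔠) :
    #((ℕ → Option S) × (ℕ → ℕ → Option Bool) × (Finset ℕ → List ℕ → Prop)) ≤ 𝔠 := by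
  have h1 : #(ℕ → Option S) ≤ 𝔠 := by
    have h2 : #(Option S) ≤ 𝔠 := by
      rw [mk_option]
      exact add_le_of_le aleph0_le_continuum hS (one_le_aleph0.trans aleph0_le_continuum)
    calc #(ℕ → Option S) = #(Option S) ^ ℵ₀ := by simp
      _ ≤ 𝔠 ^ ℵ₀ := power_le_power_right h2
      _ = 𝔠 := continuum_power_aleph0
  have hc : ∀ (A B : Type) [Countable A], #B ≤ 𝔠 → #(A → B) ≤ 𝔠 := by
    intro A B _ hB
    calc #(A → B) = #B ^ #A := by simp
      _ ≤ 𝔠 ^ #A := power_le_power_right hB
      _ ≤ 𝔠 ^ ℵ₀ := power_le_power_left continuum_ne_zero mk_le_aleph0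
      _ = 𝔠 := continuum_power_aleph0
  have hfin : ∀ (B : Type) [Countable B], #B ≤ 𝔠 := fun B _ => mk_le_aleph0.trans
    aleph0_le_continuum
  have h3 : #(ℕ → ℕ → Option Bool) ≤ 𝔠 := hc _ _ (hc _ _ (hfin _))
  have h4 : #(Finset ℕ → List ℕ → Prop) ≤ 𝔠 := by
    refine hc _ _ (hc _ _ ?_)
    rw [mk_Prop]
    exact (nat_lt_continuum 2).le
  rw [mk_prod, mk_prod]
  simp only [Cardinal.lift_id]
  exact mul_le_of_le aleph0_le_continuum h1 (mul_le_of_le aleph0_le_continuum h3 h4)

lemma card_rec {F : Cond K → (Finset ℕ → List ℕ → Prop) → Set K}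
    (hF : ∀ r y, (F r y).Countable) (i : Ordinal.{0}) : i ≤ ω₁ → #(rec' F i) ≤ 𝔠 := by
  apply WellFoundedLT.induction i
  intro i IH hi
  have C : #(⋃ j < i, rec' F j) ≤ 𝔠 := by
    apply mk_biUnion_le_of_le_lift _ aleph0_le_continuum _
    · intro j hj
      exact IH j hj (hj.trans_le hi).le
    · rw [← Ordinal.lift_le.{0}, lift_omega, Ordinal.lift_one, ← ord_aleph] at hi
      have H := card_le_of_le_ord hi
      rw [← Ordinal.lift_card] at H
      simpa using H.trans aleph_one_le_continuum
  rw [rec']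
  refine (mk_iUnion_le _).trans ?_
  refine mul_le_of_le aleph0_le_continuum (card_params _ C) ?_
  refine ciSup_le' fun p => ?_
  exact ((Psi_countable hF _ _ _).le_aleph0).trans aleph0_le_continuum

theorem clos : S_CLOS := by
  intro K F hK hF
  refine ⟨⋃ j < (ω₁ : Ordinal.{0}), rec' F j, ?_, ?_⟩
  · intro h
    have h1 : #(⋃ j < (ω₁ : Ordinal.{0}), rec' F j) ≤ 𝔠 := by
      apply mk_biUnion_le_of_le_lift _ aleph0_le_continuum _
      · intro j hj
        exact card_rec hF j hj.le
      · rw [Cardinal.lift_id, Cardinal.lift_id, Ordinal.card_omega]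
        exact aleph_one_le_continuum
    rw [h, mk_univ] at h1
    exact absurd hK (not_lt.2 h1)
  · intro r y hr
    have hmem : ∀ k : {k | ∃ n, r.val k n ≠ none}, ∃ j < (ω₁ : Ordinal.{0}), (k : K) ∈ rec' F j := by
      rintro ⟨k, n, hn⟩
      have := hr k n hn
      simp only [mem_iUnion, exists_prop] at this
      exact this
    choose I hI hI2 using hmem
    have hcnt : Countable {k | ∃ n, r.val k n ≠ none} := r.cnt.to_subtype
    set i : Ordinal.{0} := ⨆ k, (I k + 1) with hi
    have hi1 : i < ω₁ := by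
      rw [hi]
      refine Ordinal.lift_iSup_add_one_lt_of_lt_cof ?_ hI
      simp
    have hlt : ∀ k, I k < i := fun k => Ordinal.lt_iSup_add_one I k
    have hsub : ∀ k : {k | ∃ n, r.val k n ≠ none}, (k : K) ∈ ⋃ j < i, rec' F j := by
      intro k
      simp only [mem_iUnion, exists_prop]
      exact ⟨I k, hlt k, hI2 k⟩
    obtain ⟨g, hg⟩ : ∃ g : ℕ → Option (⋃ j < i, rec' F j : Set K),
        ∀ k n, r.val k n ≠ none → ∃ m, (g m).map Subtype.val = some k := by
      rcases isEmpty_or_nonempty {k | ∃ n, r.val k n ≠ none} with he | he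
      · refine ⟨fun _ => none, fun k n hk => ?_⟩
        exact (he.false ⟨k, n, hk⟩).elim
      · obtain ⟨f, hf⟩ := exists_surjective_nat {k | ∃ n, r.val k n ≠ none}
        refine ⟨fun m => some ⟨f m, hsub (f m)⟩, fun k n hk => ?_⟩
        obtain ⟨m, hm⟩ := hf ⟨k, n, hk⟩
        exact ⟨m, by simp [hm]⟩
    intro x hx
    simp only [mem_iUnion, exists_prop]
    refine ⟨i, hi1, ?_⟩
    rw [rec']
    rw [subset_Psi F hg y] at hx
    exact mem_iUnion.2 ⟨(g, _, y), hx⟩

end Pool.Agent.W540.SG
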